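import Mathlib
import Pool.Prelude.Def_H_e9e0c647
import Pool.Agent.MP_a6d740_lc.Defs
import Pool.Agent.Mg.F2e8011.G9365c0

set_option autoImplicit false

namespace Pool.Agent.Results.MP_a6d740_lc.UniformApprox

open Pool.Agent.MP_a6d740_lc

/-- One machine approximates the Young domination number with latency `L` within the factor `9`,
for all `L`, in time polynomial in `a * b` and the bit lengths of `L`, `m`, `n`. -/
theorem result :
    ∃ (k c : ℕ) (M : Turing.TM2ComputableAux Bool Bool),
      ∀ (L m n a b : ℕ) (Z : YoungDiagram), 1 ≤ a → 1 ≤ b → a ≤ n → b ≤ m →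
        (∀ p ∈ Z, p.1 < a ∧ p.2 < b) →
        ∃ out : ℕ,
          Nonempty (Turing.TM2OutputsInTime M.tm
            ((N487b59b3.bitEncode (L, m, n, table Z a b)).map M.inputAlphabet.symm)
            (some ((Computability.encodeNat out).map M.outputAlphabet.symm))
            (c * (a * b + L.size + m.size + n.size) ^ k)) ∧
          gamma L Z m n ≤ out ∧ out ≤ 9 * gamma L Z m n := by
  obtain ⟨k, c, M, f, h1, h2⟩ := exists_machine
  refine ⟨k, c, M, fun L m n a b Z ha hb _ hm hZ => ⟨_, h1 L m n a b Z ha hb, ?_⟩⟩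
  rw [h2]
  exact algo_correct L m n a b Z hZ hm

end Pool.Agent.Results.MP_a6d740_lc.UniformApprox
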